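import Pool.Agent.AEC.StmtsS

/-!
Row S_NCP of the squad AEC: `E(J)` without the point `o` is a proper subset.
-/

set_option autoImplicit false

open FirstOrder FirstOrder.Language Cardinal Set

universe u

namespace Pool.Agent.AEC.S.H34

/-- the finite linear orders -/
abbrev F (n : ℕ) : Type u := ULift.{u, 0} (Fin n)

/-- the embedding which omits `i + 1` -/
def ae {n : ℕ} (i : Fin n) : F.{u} n ↪o F.{u} (n + 1) :=
  OrderEmbedding.ofStrictMono
    (fun j => ⟨⟨if j.down.val ≤ i.val then j.down.val else j.down.val + 1, by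
      have := j.down.2; split_ifs <;> omega⟩⟩) (by
      intro j j' h
      have h' : j.down.val < j'.down.val := h
      show (if j.down.val ≤ i.val then j.down.val else j.down.val + 1) <
        (if j'.down.val ≤ i.val then j'.down.val else j'.down.val + 1)
      split_ifs <;> omega)

/-- the embedding which omits `i` -/
def be {n : ℕ} (i : Fin n) : F.{u} n ↪o F.{u} (n + 1) :=
  OrderEmbedding.ofStrictMono
    (fun j => ⟨⟨if j.down.val < i.val then j.down.val else j.down.val + 1, by
      have := j.down.2; split_ifs <;> omega⟩⟩) (by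
      intro j j' h
      have h' : j.down.val < j'.down.val := h
      show (if j.down.val < i.val then j.down.val else j.down.val + 1) <
        (if j'.down.val < i.val then j'.down.val else j'.down.val + 1)
      split_ifs <;> omega)

theorem ae_val {n : ℕ} (i : Fin n) (j : F.{u} n) :
    (ae i j).down.val = if j.down.val ≤ i.val then j.down.val else j.down.val + 1 := rfl

theorem be_val {n : ℕ} (i : Fin n) (j : F.{u} n) :
    (be i j).down.val = if j.down.val < i.val then j.down.val else j.down.val + 1 := rfl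

/-- gluing -/
theorem glue {n : ℕ} (i : Fin n) {J : Type u} [LinearOrder J] (a b : F.{u} n ↪o J)
    (h : ∀ j : F.{u} n, j.down ≠ i → a j = b j) (hlt : a ⟨i⟩ < b ⟨i⟩) :
    ∃ g : F.{u} (n + 1) ↪o J, (∀ j, a j = g (ae i j)) ∧ ∀ j, b j = g (be i j) := by
  let fa : ℕ → J := fun k => if hk : k < n then a ⟨⟨k, hk⟩⟩ else a ⟨i⟩
  let fb : ℕ → J := fun k => if hk : k < n then b ⟨⟨k, hk⟩⟩ else a ⟨i⟩
  have hfa : ∀ j : F.{u} n, fa j.down.val = a j := by
    intro j
    show (if hk : j.down.val < n then a ⟨⟨j.down.val, hk⟩⟩ else a ⟨i⟩) = a j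
    rw [dif_pos j.down.2]
  have hfb : ∀ j : F.{u} n, fb j.down.val = b j := by
    intro j
    show (if hk : j.down.val < n then b ⟨⟨j.down.val, hk⟩⟩ else a ⟨i⟩) = b j
    rw [dif_pos j.down.2]
  have hfam : ∀ k k' : ℕ, k < k' → k' < n → fa k < fa k' := by
    intro k k' h1 h2
    have e1 := hfa ⟨⟨k, h1.trans h2⟩⟩
    have e2 := hfa ⟨⟨k', h2⟩⟩
    have e3 : fa k = a ⟨⟨k, h1.trans h2⟩⟩ := e1
    have e4 : fa k' = a ⟨⟨k', h2⟩⟩ := e2
    rw [e3, e4]
    exact a.strictMono (show (⟨⟨k, h1.trans h2⟩⟩ : F.{u} n) < ⟨⟨k', h2⟩⟩ from h1)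
  have hfbm : ∀ k k' : ℕ, k < k' → k' < n → fb k < fb k' := by
    intro k k' h1 h2
    have e3 : fb k = b ⟨⟨k, h1.trans h2⟩⟩ := hfb ⟨⟨k, h1.trans h2⟩⟩
    have e4 : fb k' = b ⟨⟨k', h2⟩⟩ := hfb ⟨⟨k', h2⟩⟩
    rw [e3, e4]
    exact b.strictMono (show (⟨⟨k, h1.trans h2⟩⟩ : F.{u} n) < ⟨⟨k', h2⟩⟩ from h1)
  have hab : fa i.val < fb i.val := by
    have e3 : fa i.val = a ⟨i⟩ := hfa ⟨i⟩
    have e4 : fb i.val = b ⟨i⟩ := hfb ⟨i⟩
    rw [e3, e4]
    exact hlt
  let g₀ : F.{u} (n + 1) → J := fun j =>
    if j.down.val ≤ i.val then fa j.down.val else fb (j.down.val - 1)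
  have hg : StrictMono g₀ := by
    intro j j' hj
    have hj' : j.down.val < j'.down.val := hj
    have h1 := j'.down.2
    have hi := i.2
    show (if j.down.val ≤ i.val then fa j.down.val else fb (j.down.val - 1)) <
      (if j'.down.val ≤ i.val then fa j'.down.val else fb (j'.down.val - 1))
    by_cases c1 : j'.down.val ≤ i.val
    · rw [if_pos (by omega), if_pos c1]
      exact hfam _ _ hj' (by omega)
    · rw [if_neg c1]
      by_cases c2 : j.down.val ≤ i.val
      · rw [if_pos c2]
        have s1 : fa j.down.val ≤ fa i.val := by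
          rcases Nat.eq_or_lt_of_le c2 with h | h
          · rw [h]
          · exact (hfam _ _ h hi).le
        have s2 : fb i.val ≤ fb (j'.down.val - 1) := by
          rcases Nat.eq_or_lt_of_le (show i.val ≤ j'.down.val - 1 by omega) with h | h
          · rw [← h]
          · exact (hfbm _ _ h (by omega)).le
        exact s1.trans_lt (hab.trans_le s2)
      · rw [if_neg c2]
        exact hfbm _ _ (by omega) (by omega)
  refine ⟨OrderEmbedding.ofStrictMono g₀ hg, ?_, ?_⟩
  · intro j
    show a j = (if (ae i j).down.val ≤ i.val then fa (ae i j).down.val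
      else fb ((ae i j).down.val - 1))
    rw [ae_val]
    by_cases c : j.down.val ≤ i.val
    · rw [if_pos c, if_pos c, hfa]
    · rw [if_neg c, if_neg (by omega), Nat.add_sub_cancel, hfb]
      refine h j ?_
      intro h0
      rw [h0] at c
      exact c le_rfl
  · intro j
    show b j = (if (be i j).down.val ≤ i.val then fa (be i j).down.val
      else fb ((be i j).down.val - 1))
    rw [be_val]
    by_cases c : j.down.val < i.val
    · rw [if_pos c, if_pos c.le, hfa]
      refine (h j ?_).symm
      intro h0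
      rw [h0] at c
      exact lt_irrefl _ c
    · rw [if_neg c, if_neg (by omega), Nat.add_sub_cancel, hfb]

section
variable {L : FirstOrder.Language.{u, u}} {κ : Cardinal.{u}} {K : AEC L κ} (E : K.EM)

/-- two embeddings which differ in one coordinate -/
theorem one (H : ∀ (n : ℕ) (i : Fin n) (y : (E.obj (F.{u} n)).α),
      E.map (ae i) y = E.map (be i) y) {n : ℕ} (i : Fin n) {J : Type u} [LinearOrder J]
    (a b : F.{u} n ↪o J) (h : ∀ j : F.{u} n, j.down ≠ i → a j = b j)
    (y : (E.obj (F.{u} n)).α) : E.map a y = E.map b y := by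
  rcases lt_trichotomy (a ⟨i⟩) (b ⟨i⟩) with hlt | heq | hlt
  · obtain ⟨g, h1, h2⟩ := glue i a b h hlt
    rw [E.map_comp (ae i) g a h1, E.map_comp (be i) g b h2, H]
  · have : a = b := by
      refine DFunLike.ext _ _ fun j => ?_
      by_cases hj : j.down = i
      · have : j = ⟨i⟩ := by rw [← hj]
        rw [this]; exact heq
      · exact h j hj
    rw [this]
  · obtain ⟨g, h1, h2⟩ := glue i b a (fun j hj => (h j hj).symm) hlt
    rw [E.map_comp (be i) g a h2, E.map_comp (ae i) g b h1, H]

/-- the embedding between `inr` and `inl ∘ a` -/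
def ek {n : ℕ} {J : Type u} [LinearOrder J] (a : F.{u} n ↪o J) (k : ℕ) :
    F.{u} n ↪o Lex (J ⊕ F.{u} n) :=
  OrderEmbedding.ofStrictMono
    (fun j => if j.down.val < k then toLex (Sum.inl (a j)) else toLex (Sum.inr j)) (by
      intro j j' h
      have h' : j.down.val < j'.down.val := h
      show (if j.down.val < k then toLex (Sum.inl (a j)) else toLex (Sum.inr j)) <
        (if j'.down.val < k then toLex (Sum.inl (a j')) else toLex (Sum.inr j'))
      by_cases c1 : j'.down.val < k
      · rw [if_pos (by omega), if_pos c1]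
        exact Sum.Lex.inl_lt_inl_iff.2 (a.strictMono h)
      · rw [if_neg c1]
        by_cases c2 : j.down.val < k
        · rw [if_pos c2]
          exact Sum.Lex.inl_lt_inr _ _
        · rw [if_neg c2]
          exact Sum.Lex.inr_lt_inr_iff.2 h)

theorem ek_val {n : ℕ} {J : Type u} [LinearOrder J] (a : F.{u} n ↪o J) (k : ℕ) (j : F.{u} n) :
    ek a k j = if j.down.val < k then toLex (Sum.inl (a j)) else toLex (Sum.inr j) := rfl

/-- all embeddings -/
theorem two (H : ∀ (n : ℕ) (i : Fin n) (y : (E.obj (F.{u} n)).α),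
      E.map (ae i) y = E.map (be i) y) {n : ℕ} {J : Type u} [LinearOrder J]
    (a b : F.{u} n ↪o J) (y : (E.obj (F.{u} n)).α) : E.map a y = E.map b y := by
  have key : ∀ (a : F.{u} n ↪o J) (k : ℕ), k ≤ n → E.map (ek a k) y = E.map (ek a 0) y := by
    intro a k
    induction k with
    | zero => intro _; rfl
    | succ k ih =>
      intro hk
      rw [← ih (by omega)]
      refine one E H ⟨k, by omega⟩ _ _ ?_ y
      intro j hj
      have hjk : j.down.val ≠ k := fun h => hj (Fin.ext h)
      rw [ek_val, ek_val]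
      by_cases c : j.down.val < k
      · rw [if_pos c, if_pos (by omega)]
      · rw [if_neg c, if_neg (by omega)]
  have h0 : ek a 0 = ek b 0 := by
    refine DFunLike.ext _ _ fun j => ?_
    rw [ek_val, ek_val, if_neg (by omega), if_neg (by omega)]
  let il : J ↪o Lex (J ⊕ F.{u} n) :=
    OrderEmbedding.ofStrictMono (fun x => toLex (Sum.inl x))
      (fun _ _ h => Sum.Lex.inl_lt_inl_iff.2 h)
  have h1 : ∀ a : F.{u} n ↪o J, E.map il (E.map a y) = E.map (ek a n) y := by
    intro a
    refine (E.map_comp a il (ek a n) ?_ y).symm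
    intro j
    rw [ek_val, if_pos j.down.2]
    rfl
  apply (E.map il).injective
  rw [h1, h1, key a n le_rfl, key b n le_rfl, h0]

/-- every element comes from a finite linear order -/
theorem three {J : Type u} [LinearOrder J] (x : (E.obj J).α) :
    ∃ (n : ℕ) (y : (E.obj (F.{u} n)).α) (a : F.{u} n ↪o J), E.map a y = x := by
  obtain ⟨s, y, hy⟩ := E.supp J x
  let e := s.orderIsoOfFin (rfl : s.card = s.card)
  let v : F.{u} s.card ↪o (s : Set J) :=
    OrderEmbedding.ofStrictMono (fun j => ⟨(e j.down).1, (e j.down).2⟩) (by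
      intro j j' h
      exact e.strictMono (show j.down < j'.down from h))
  let v' : (s : Set J) ↪o F.{u} s.card :=
    OrderEmbedding.ofStrictMono (fun x => ⟨e.symm ⟨x.1, x.2⟩⟩) (by
      intro j j' h
      exact e.symm.strictMono (show (⟨j.1, j.2⟩ : s) < ⟨j'.1, j'.2⟩ from h))
  have hvv : ∀ x, v (v' x) = x := by
    intro x
    apply Subtype.ext
    show (e (e.symm ⟨x.1, x.2⟩)).1 = x.1
    rw [e.apply_symm_apply]
  refine ⟨s.card, E.map v' y,
    v.trans (OrderEmbedding.subtype fun i => i ∈ (s : Set J)), ?_⟩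
  rw [E.map_comp v (OrderEmbedding.subtype fun i => i ∈ (s : Set J))
    (v.trans (OrderEmbedding.subtype fun i => i ∈ (s : Set J))) (fun _ => rfl)]
  rw [← hy]
  apply congrArg
  have h2 : E.map (v'.trans v) y = y := by
    refine E.map_id _ _ ?_ y
    intro x
    exact hvv x
  rw [← E.map_comp v' v (v'.trans v) (fun _ => rfl), h2]

/-- not all values are independent of the embedding -/
theorem four (H : ∀ (n : ℕ) (i : Fin n) (y : (E.obj (F.{u} n)).α),
    E.map (ae i) y = E.map (be i) y) : False := by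
  have hX : ∃ X : Type u, κ < #X := by
    refine ⟨Set κ.out, ?_⟩
    have h1 := Cardinal.cantor κ
    rwa [Cardinal.mk_set, Cardinal.mk_out]
  obtain ⟨X, hc⟩ := hX
  obtain ⟨lo, -⟩ := exists_wellFoundedLT X
  have hle := E.le_card X
  choose n y a h using fun x : (E.obj X).α => three E x
  have hinj : Function.Injective (fun x : (E.obj X).α =>
      (⟨⟨n x⟩, y x⟩ : Σ m : ULift.{u} ℕ, (E.obj (F.{u} m.down)).α)) := by
    have gen : ∀ (p q : Σ m : ULift.{u} ℕ, (E.obj (F.{u} m.down)).α) (a : F.{u} p.1.down ↪o X)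
        (b : F.{u} q.1.down ↪o X), p = q → E.map a p.2 = E.map b q.2 := by
      intro p q a b hpq
      subst hpq
      exact two E H a b p.2
    intro x x' hx
    have h1 := gen _ _ (a x) (a x') hx
    have h2 : E.map (a x) (y x) = E.map (a x') (y x') := h1
    rw [h, h] at h2
    exact h2
  have h1 := Cardinal.mk_le_of_injective hinj
  have hκ := K.aleph0_le
  have h2 : #(Σ m : ULift.{u} ℕ, (E.obj (F.{u} m.down)).α) ≤ κ := by
    rw [Cardinal.mk_sigma]
    have h3 : (Cardinal.sum fun m : ULift.{u} ℕ => #((E.obj (F.{u} m.down)).α)) ≤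
        Cardinal.sum fun _ : ULift.{u} ℕ => κ := by
      refine Cardinal.sum_le_sum _ _ fun m => ?_
      refine (E.card_le (F.{u} m.down)).trans ?_
      refine Cardinal.add_le_of_le hκ ?_ le_rfl
      exact (Cardinal.lt_aleph0_of_finite _).le.trans hκ
    refine h3.trans ?_
    rw [Cardinal.sum_const']
    have h4 : #(ULift.{u} ℕ) = ℵ₀ := by
      rw [Cardinal.mk_uLift, Cardinal.mk_nat, Cardinal.lift_aleph0]
    rw [h4, Cardinal.aleph0_mul_eq hκ]
  exact absurd (hle.trans (h1.trans h2)) (not_le.2 hc)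

/-- an embedding with a given value -/
theorem five {J : Type u} [LinearOrder J] [NoMinOrder J] [NoMaxOrder J] (o : J) {n : ℕ}
    (i : Fin n) : ∃ a : F.{u} n ↪o J, a ⟨i⟩ = o := by
  obtain ⟨f, hf, hf₀⟩ := Nat.exists_strictMono' o
  obtain ⟨g, hg, hg₀⟩ := Nat.exists_strictAnti' o
  refine ⟨OrderEmbedding.ofStrictMono (fun j => if i.val ≤ j.down.val then f (j.down.val - i.val)
    else g (i.val - j.down.val)) ?_, ?_⟩
  · intro j j' h
    have h' : j.down.val < j'.down.val := h
    show (if i.val ≤ j.down.val then f (j.down.val - i.val) else g (i.val - j.down.val)) <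
      (if i.val ≤ j'.down.val then f (j'.down.val - i.val) else g (i.val - j'.down.val))
    by_cases c1 : i.val ≤ j.down.val
    · rw [if_pos c1, if_pos (by omega)]
      exact hf (by omega)
    · rw [if_neg c1]
      by_cases c2 : i.val ≤ j'.down.val
      · rw [if_pos c2]
        have s1 : g (i.val - j.down.val) < o := by
          rw [← hg₀]
          exact hg (by omega)
        have s2 : o ≤ f (j'.down.val - i.val) := by
          rw [← hf₀]
          exact hf.monotone (Nat.zero_le _)
        exact s1.trans_le s2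
      · rw [if_neg c2]
        exact hg (by omega)
  · show (if i.val ≤ i.val then f (i.val - i.val) else g (i.val - i.val)) = o
    rw [if_pos le_rfl, Nat.sub_self, hf₀]

end

theorem s_ncp : NcpStmt.{u} := by
  intro L κ K E J _ _ _ o hJ
  by_contra hcon
  push Not at hcon
  refine four E ?_
  intro n i y
  obtain ⟨a, ha⟩ := five o i
  obtain ⟨z, hz⟩ := hcon (E.map a y)
  obtain ⟨s, w, hw⟩ := E.supp _ z
  let v : (s : Set (({o}ᶜ : Set J))) ↪o J :=
    (OrderEmbedding.subtype fun i => i ∈ (s : Set (({o}ᶜ : Set J)))).trans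
      (OrderEmbedding.subtype fun i : J => i ∈ ({o}ᶜ : Set J))
  have hv : E.map v w = E.map a y := by
    rw [← hz, ← hw]
    exact E.map_comp _ _ v (fun _ => rfl) w
  have hvo : ∀ x, v x ≠ o := fun x => x.1.2
  have hκ := K.aleph0_le
  obtain ⟨σ, hσ, hσo⟩ := hJ (Set.range v ∪ Set.range a) (by
    refine le_trans (le_of_lt (Set.Finite.lt_aleph0 ?_)) hκ
    exact (Set.finite_range v).union (Set.finite_range a))
  have h1 : E.map σ.toOrderEmbedding (E.map v w) = E.map v w := by
    refine (E.map_comp v σ.toOrderEmbedding v ?_ w).symm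
    intro x
    exact (hσ (v x) (Or.inl ⟨x, rfl⟩) (hvo x)).symm
  rw [hv] at h1
  have h2 : E.map (a.trans σ.toOrderEmbedding) y = E.map a y := by
    rw [E.map_comp a σ.toOrderEmbedding (a.trans σ.toOrderEmbedding) (fun _ => rfl)]
    exact h1
  have hj : ∀ j : F.{u} n, j.down ≠ i → a j = a.trans σ.toOrderEmbedding j := by
    intro j hj
    refine (hσ (a j) (Or.inr ⟨j, rfl⟩) ?_).symm
    rw [← ha]
    intro h
    have := a.injective h
    exact hj (congrArg ULift.down this)
  have hio : a.trans σ.toOrderEmbedding ⟨i⟩ = σ o := by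
    show σ (a ⟨i⟩) = σ o
    rw [ha]
  rcases lt_or_gt_of_ne hσo with hlt | hlt
  · obtain ⟨g, g1, g2⟩ := glue i (a.trans σ.toOrderEmbedding) a (fun j h => (hj j h).symm)
      (by rw [hio, ha]; exact hlt)
    rw [E.map_comp (be i) g a g2,
      E.map_comp (ae i) g (a.trans σ.toOrderEmbedding) g1] at h2
    exact (E.map g).injective h2
  · obtain ⟨g, g1, g2⟩ := glue i a (a.trans σ.toOrderEmbedding) hj
      (by rw [hio, ha]; exact hlt)
    rw [E.map_comp (ae i) g a g1,
      E.map_comp (be i) g (a.trans σ.toOrderEmbedding) g2] at h2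
    exact ((E.map g).injective h2).symm

end Pool.Agent.AEC.S.H34
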